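import Mathlib

/-!
Growth functions of finitely presented semigroups do not oscillate between arbitrary bounds.

There is a strictly increasing function `f₂` strictly below `2 ^ n` such that no finitely presented
semigroup has a growth function which is infinitely often larger than `f₂` and infinitely often
smaller than some function of subexponential growth (such as `n ^ 3`).
-/

set_option autoImplicit false

namespace Pool.Agent.Results.MP_dd6e79_al.NoOscillation

open Filter Pointwise

universe u v

/-- The growth function of the semigroup `S` with respect to the finite set `X`: the number of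
elements of `S` which are represented by nonempty words of length at most `n` over `X`. -/
noncomputable def growth {S : Type u} [Semigroup S] (X : Finset S) (n : ℕ) : ℕ :=
  Set.ncard {s : S | ∃ w : FreeSemigroup X, w.length ≤ n ∧
    FreeSemigroup.lift (fun x : X => (x : S)) w = s}

/-- The semigroup `S` is finitely presented: it is isomorphic to the quotient of a free semigroup
of finite rank by the congruence generated by a finite set of pairs of words. -/
def FinitelyPresented (S : Type u) [Semigroup S] : Prop :=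
  ∃ (k : ℕ) (R : Finset (FreeSemigroup (Fin k) × FreeSemigroup (Fin k))),
    Nonempty (S ≃* (conGen fun a b => (a, b) ∈ R).Quotient)

/-- The preorder on growth functions: `f n ≤ C * g (C * n)` for a constant `C ≥ 1` and all `n`. -/
def GrowthLE (f g : ℕ → ℕ) : Prop := ∃ C : ℕ, 1 ≤ C ∧ ∀ n, f n ≤ C * g (C * n)

/-- Equivalence of growth functions. -/
def GrowthEquiv (f g : ℕ → ℕ) : Prop := GrowthLE f g ∧ GrowthLE g f

/-- The function `f` is of subexponential growth: it is eventually below `c ^ n`, for all real
numbers `c > 1`. -/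
def Subexponential (f : ℕ → ℕ) : Prop := ∀ c : ℝ, 1 < c → ∀ᶠ n in atTop, (f n : ℝ) ≤ c ^ n

/-! ### Growth with respect to a family of generators -/

/-- The set of values of the words of length at most `n`. -/
def ball {ι : Type v} {S : Type u} [Semigroup S] (f : ι → S) (n : ℕ) : Set S :=
  {s : S | ∃ w : FreeSemigroup ι, w.length ≤ n ∧ FreeSemigroup.lift f w = s}

theorem growth_eq {S : Type u} [Semigroup S] (X : Finset S) (n : ℕ) :
    growth X n = (ball (fun x : X => (x : S)) n).ncard := rfl

theorem finite_words {ι : Type v} [Finite ι] (n : ℕ) :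
    {w : FreeSemigroup ι | w.length ≤ n}.Finite := by
  have h1 : (Set.univ ×ˢ {l : List ι | l.length ≤ n} : Set (ι × List ι)).Finite :=
    Set.finite_univ.prod (List.finite_length_le ι n)
  have h2 : {w : FreeSemigroup ι | w.length ≤ n} ⊆
      (fun p : ι × List ι => (⟨p.1, p.2⟩ : FreeSemigroup ι)) ''
        (Set.univ ×ˢ {l : List ι | l.length ≤ n}) := by
    intro w hw
    refine ⟨(w.head, w.tail), ⟨Set.mem_univ _, ?_⟩, rfl⟩
    have : w.length = w.tail.length + 1 := rfl
    simp only [Set.mem_ofPred_eq] at hw ⊢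
    omega
  exact (h1.image _).subset h2

theorem ball_finite {ι : Type v} [Finite ι] {S : Type u} [Semigroup S] (f : ι → S) (n : ℕ) :
    (ball f n).Finite := by
  refine ((finite_words (ι := ι) n).image (FreeSemigroup.lift f)).subset ?_
  rintro s ⟨w, hw, rfl⟩
  exact ⟨w, hw, rfl⟩

theorem ball_mono {ι : Type v} {S : Type u} [Semigroup S] (f : ι → S) {m n : ℕ} (h : m ≤ n) :
    ball f m ⊆ ball f n := by
  rintro s ⟨w, hw, rfl⟩
  exact ⟨w, hw.trans h, rfl⟩

theorem length_pos {ι : Type v} (w : FreeSemigroup ι) : 0 < w.length := Nat.succ_pos _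

theorem split {ι : Type v} (w : FreeSemigroup ι) (m : ℕ) (hm : 0 < m) (h : m < w.length) :
    ∃ a b : FreeSemigroup ι, w = a * b ∧ a.length = m ∧ b.length + m = w.length := by
  obtain ⟨x, l⟩ := w
  have hl : (⟨x, l⟩ : FreeSemigroup ι).length = l.length + 1 := rfl
  rw [hl] at h
  have h1 : m - 1 < l.length := by omega
  refine ⟨⟨x, l.take (m - 1)⟩, ⟨l[m - 1], l.drop m⟩, ?_, ?_, ?_⟩
  · have h2 : l = l.take (m - 1) ++ l[m - 1] :: l.drop m := by
      have h3 := List.drop_eq_getElem_cons h1
      have h4 : m - 1 + 1 = m := by omega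
      rw [h4] at h3
      rw [← h3, List.take_append_drop]
    exact FreeSemigroup.ext rfl h2
  · show (l.take (m - 1)).length + 1 = m
    rw [List.length_take]
    omega
  · show (l.drop m).length + 1 + m = l.length + 1
    rw [List.length_drop]
    omega

theorem ball_add {ι : Type v} {S : Type u} [Semigroup S] (f : ι → S) (m n : ℕ) (hm : 0 < m) :
    ball f (m + n) ⊆ ball f m ∪ ball f m * ball f n := by
  rintro s ⟨w, hw, rfl⟩
  by_cases h : w.length ≤ m
  · exact Or.inl ⟨w, h, rfl⟩
  · obtain ⟨a, b, rfl, ha, hb⟩ := split w m hm (by omega)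
    right
    rw [map_mul]
    exact Set.mul_mem_mul ⟨a, ha.le, rfl⟩ ⟨b, by omega, rfl⟩

theorem ball_zero {ι : Type v} {S : Type u} [Semigroup S] (f : ι → S) : ball f 0 = ∅ := by
  ext s
  constructor
  · rintro ⟨w, hw, -⟩
    have := length_pos w
    omega
  · intro h
    exact h.elim

theorem submul {ι : Type v} [Finite ι] {S : Type u} [Semigroup S] (f : ι → S) (m n : ℕ) :
    (ball f (m + n)).ncard + 1 ≤ ((ball f m).ncard + 1) * ((ball f n).ncard + 1) := by
  rcases Nat.eq_zero_or_pos m with rfl | hm
  · rw [ball_zero, Set.ncard_empty, zero_add, zero_add, one_mul]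
  · have h1 : (ball f (m + n)).ncard ≤ (ball f m ∪ ball f m * ball f n).ncard :=
      Set.ncard_le_ncard (ball_add f m n hm)
        ((ball_finite f m).union ((ball_finite f m).mul (ball_finite f n)))
    have h2 := Set.ncard_union_le (ball f m) (ball f m * ball f n)
    have h3 : (ball f m * ball f n).ncard ≤ (ball f m).ncard * (ball f n).ncard := by
      rw [← Set.image_mul_prod, ← Set.ncard_prod]
      exact Set.ncard_image_le ((ball_finite f m).prod (ball_finite f n))
    nlinarith

/-! ### The dichotomy -/

theorem dichotomy (h : ℕ → ℕ) (h1 : ∀ n, 1 ≤ h n) (hs : ∀ m n, h (m + n) ≤ h m * h n) :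
    Subexponential h ∨ ∃ c : ℝ, 1 < c ∧ ∀ n, c ^ n ≤ (h n : ℝ) := by
  have hpos : ∀ n, (0 : ℝ) < h n := fun n => by exact_mod_cast h1 n
  have hsub : Subadditive fun n => Real.log (h n) := by
    intro m n
    rw [← Real.log_mul (hpos m).ne' (hpos n).ne']
    apply Real.log_le_log (hpos _)
    exact_mod_cast hs m n
  have hnn : ∀ n : ℕ, 0 ≤ Real.log (h n) / n := by
    intro n
    apply div_nonneg _ (Nat.cast_nonneg _)
    exact Real.log_nonneg (by exact_mod_cast h1 n)
  have hb : BddBelow (Set.range fun n : ℕ => Real.log (h n) / n) :=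
    ⟨0, by rintro _ ⟨n, rfl⟩; exact hnn n⟩
  have ht := hsub.tendsto_lim hb
  have hL : 0 ≤ hsub.lim := ge_of_tendsto' ht hnn
  rcases hL.eq_or_lt with hL | hL
  · left
    intro c hc
    rw [← hL] at ht
    have hlc : 0 < Real.log c := Real.log_pos hc
    filter_upwards [ht.eventually (gt_mem_nhds hlc), eventually_gt_atTop 0] with n hn hn0
    have hn0' : (0 : ℝ) < n := by exact_mod_cast hn0
    rw [div_lt_iff₀ hn0'] at hn
    have h2 : Real.log (h n) ≤ Real.log (c ^ n) := by
      rw [Real.log_pow]
      linarith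
    exact (Real.log_le_log_iff (hpos n) (pow_pos (by linarith) n)).1 h2
  · right
    refine ⟨Real.exp hsub.lim, Real.one_lt_exp_iff.2 hL, fun n => ?_⟩
    rcases Nat.eq_zero_or_pos n with rfl | hn
    · rw [pow_zero]
      exact_mod_cast h1 0
    · have h2 := hsub.lim_le_div hb hn.ne'
      have hn0' : (0 : ℝ) < n := by exact_mod_cast hn
      rw [le_div_iff₀ hn0'] at h2
      rw [← Real.exp_nat_mul, mul_comm, ← Real.exp_log (hpos n)]
      exact Real.exp_le_exp.2 h2

/-! ### Subexponential functions -/

theorem subexp_iff (f : ℕ → ℕ) : Subexponential f ↔ ∀ k : ℕ, ∀ᶠ n in atTop, f n ^ k ≤ 2 ^ n := by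
  constructor
  · intro hf k
    rcases Nat.eq_zero_or_pos k with rfl | hk
    · exact Eventually.of_forall fun n => by
        rw [pow_zero]
        exact Nat.one_le_two_pow
    · have hk' : (k : ℝ) ≠ 0 := by exact_mod_cast hk.ne'
      have h1 : (1 : ℝ) < 2 ^ ((k : ℝ)⁻¹) :=
        Real.one_lt_rpow (by norm_num) (by positivity)
      filter_upwards [hf _ h1] with n hn
      have h2 : ((f n : ℝ)) ^ k ≤ ((2 ^ ((k : ℝ)⁻¹) : ℝ) ^ n) ^ k :=
        pow_le_pow_left₀ (Nat.cast_nonneg _) hn k
      have h3 : ((2 ^ ((k : ℝ)⁻¹) : ℝ) ^ n) ^ k = 2 ^ n := by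
        rw [← pow_mul, mul_comm n k, pow_mul, ← Real.rpow_natCast (2 ^ ((k : ℝ)⁻¹)) k,
          ← Real.rpow_mul (by norm_num), inv_mul_cancel₀ hk', Real.rpow_one]
      rw [h3] at h2
      exact_mod_cast h2
  · intro hf c hc
    obtain ⟨k, hk⟩ := pow_unbounded_of_one_lt 2 hc
    have hk0 : k ≠ 0 := by
      rintro rfl
      rw [pow_zero] at hk
      linarith
    filter_upwards [hf k] with n hn
    have h1 : ((f n : ℝ)) ^ k ≤ (c ^ n) ^ k := by
      calc ((f n : ℝ)) ^ k ≤ 2 ^ n := by exact_mod_cast hn
        _ ≤ (c ^ k) ^ n := pow_le_pow_left₀ (by norm_num) hk.le n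
        _ = (c ^ n) ^ k := by rw [← pow_mul, ← pow_mul, mul_comm]
    exact le_of_pow_le_pow_left₀ hk0 (pow_nonneg (by linarith) n) h1

theorem Subexponential.mono {f g : ℕ → ℕ} (hg : Subexponential g) (h : ∀ n, f n ≤ g n) :
    Subexponential f := by
  intro c hc
  filter_upwards [hg c hc] with n hn
  exact le_trans (by exact_mod_cast h n) hn

theorem subexp_pow (d : ℕ) : Subexponential fun n => n ^ d := by
  intro c hc
  have h := (isLittleO_pow_const_const_pow_of_one_lt (R := ℝ) d hc).bound (c := 1) one_pos
  filter_upwards [h] with n hn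
  rw [one_mul, Real.norm_of_nonneg (by positivity),
    Real.norm_of_nonneg (pow_nonneg (by linarith) n)] at hn
  push_cast
  exact hn

/-- A countable family of monotone subexponential functions is eventually dominated by one
strictly increasing subexponential function. -/
theorem dominate (G : ℕ → ℕ → ℕ) (hG : ∀ i, Subexponential (G i)) (hm : ∀ i, Monotone (G i)) :
    ∃ F : ℕ → ℕ, StrictMono F ∧ Subexponential F ∧ ∀ i, ∀ᶠ n in atTop, G i n ≤ F n := by
  classical
  set P : ℕ → ℕ → Prop := fun n k => ∀ m, n ≤ m → ∀ i, i ≤ k → G i m ^ k ≤ 2 ^ m with hP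
  have hP0 : ∀ n, P n 0 := by
    intro n m _ i _
    rw [pow_zero]
    exact Nat.one_le_two_pow
  set κ : ℕ → ℕ := fun n => Nat.findGreatest (P n) n with hκ
  have hκP : ∀ n, P n (κ n) := fun n => Nat.findGreatest_spec (m := 0) (Nat.zero_le _) (hP0 n)
  have hκm : Monotone κ := by
    intro a b hab
    apply Nat.findGreatest_mono _ hab
    intro k hk m hm
    exact hk m (hab.trans hm)
  have hκt : ∀ k, ∀ᶠ n in atTop, k ≤ κ n := by
    intro k
    have h1 : ∀ᶠ n in atTop, ∀ i ∈ Finset.range (k + 1), G i n ^ k ≤ 2 ^ n := by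
      rw [Filter.eventually_all_finset]
      intro i _
      exact (subexp_iff _).1 (hG i) k
    obtain ⟨N, hN⟩ := eventually_atTop.1 h1
    filter_upwards [eventually_ge_atTop (max N k)] with n hn
    apply Nat.le_findGreatest (le_trans (le_max_right _ _) hn)
    intro m hm i hi
    exact hN m (le_trans (le_max_left _ _) (hn.trans hm)) i (Finset.mem_range.2 (by omega))
  set s : ℕ → ℕ := fun n => (Finset.range (κ n + 1)).sup fun i => G i n with hs
  have hsm : Monotone s := by
    intro a b hab
    apply Finset.sup_le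
    intro i hi
    rw [Finset.mem_range] at hi
    have h1 : i ∈ Finset.range (κ b + 1) := by
      rw [Finset.mem_range]
      have := hκm hab
      omega
    exact (hm i hab).trans (Finset.le_sup (f := fun i => G i b) h1)
  have hse : Subexponential s := by
    rw [subexp_iff]
    intro k
    filter_upwards [hκt k] with n hn
    obtain ⟨i, hi, hin⟩ := Finset.exists_mem_eq_sup (Finset.range (κ n + 1))
      ⟨0, Finset.mem_range.2 (Nat.succ_pos _)⟩ fun i => G i n
    have h1 : s n = G i n := hin
    rw [h1]
    have h2 : G i n ^ κ n ≤ 2 ^ n := hκP n n le_rfl i (by rw [Finset.mem_range] at hi; omega)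
    rcases Nat.eq_zero_or_pos (G i n) with h0 | h0
    · rcases Nat.eq_zero_or_pos k with rfl | hk
      · rw [pow_zero]
        exact Nat.one_le_two_pow
      · rw [h0, zero_pow hk.ne']
        exact Nat.zero_le _
    · exact (Nat.pow_le_pow_right h0 hn).trans h2
  refine ⟨fun n => n + s n, ?_, ?_, ?_⟩
  · intro a b hab
    have := hsm hab.le
    show a + s a < b + s b
    omega
  · intro c hc
    have hc' : 1 < Real.sqrt c := by
      rw [Real.lt_sqrt (by norm_num)]
      linarith
    have h2 : ∀ᶠ n : ℕ in atTop, (2 : ℝ) ≤ Real.sqrt c ^ n :=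
      (tendsto_pow_atTop_atTop_of_one_lt hc').eventually_ge_atTop 2
    filter_upwards [hse _ hc', subexp_pow 1 _ hc', h2] with n hn1 hn2 hn3
    rw [pow_one] at hn2
    have h3 : c ^ n = Real.sqrt c ^ n * Real.sqrt c ^ n := by
      rw [← mul_pow, Real.mul_self_sqrt (by linarith)]
    push_cast
    rw [h3]
    have h4 : (0 : ℝ) ≤ Real.sqrt c ^ n := by positivity
    nlinarith
  · intro i
    filter_upwards [hκt i] with n hn
    have h1 : G i n ≤ s n :=
      Finset.le_sup (f := fun i => G i n) (Finset.mem_range.2 (by omega))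
    show G i n ≤ n + s n
    omega

theorem le_exp_of_subexp {f : ℕ → ℕ} (hf : Subexponential f) : GrowthLE f fun n => 2 ^ n := by
  obtain ⟨N, hN⟩ := eventually_atTop.1 ((subexp_iff f).1 hf 1)
  refine ⟨1 + (Finset.range N).sup f, by omega, fun n => ?_⟩
  by_cases h : n < N
  · have h1 : f n ≤ (Finset.range N).sup f := Finset.le_sup (Finset.mem_range.2 h)
    have h2 : 1 ≤ 2 ^ ((1 + (Finset.range N).sup f) * n) := Nat.one_le_two_pow
    show f n ≤ (1 + (Finset.range N).sup f) * 2 ^ ((1 + (Finset.range N).sup f) * n)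
    nlinarith
  · have h1 := hN n (by omega)
    rw [pow_one] at h1
    have h2 : 2 ^ n ≤ 2 ^ ((1 + (Finset.range N).sup f) * n) :=
      Nat.pow_le_pow_right (by norm_num) (by nlinarith)
    show f n ≤ (1 + (Finset.range N).sup f) * 2 ^ ((1 + (Finset.range N).sup f) * n)
    nlinarith

theorem not_equiv_of_subexp {f : ℕ → ℕ} (hf : Subexponential f) :
    ¬ GrowthEquiv f fun n => 2 ^ n := by
  rintro ⟨-, C, hC, h⟩
  obtain ⟨N, hN⟩ := eventually_atTop.1 ((subexp_iff f).1 hf (2 * C))
  set n := 2 * (N + C) with hn
  have h1 := h n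
  have h2 := hN (C * n) (by nlinarith)
  have h3 : f (C * n) ≤ 2 ^ (N + C) := by
    have h4 : C * n = (N + C) * (2 * C) := by rw [hn]; ring
    have h9 : 2 ^ (C * n) = (2 ^ (N + C)) ^ (2 * C) := by rw [h4, pow_mul]
    rw [h9] at h2
    exact (Nat.pow_le_pow_iff_left (by omega)).1 h2
  have h5 : 2 ^ n = 2 ^ (N + C) * 2 ^ (N + C) := by rw [hn, ← pow_add]; congr 1; ring
  simp only at h1
  rw [h5] at h1
  have h6 : C < 2 ^ (N + C) := lt_of_lt_of_le (Nat.lt_two_pow_self) (Nat.pow_le_pow_right (by norm_num) (by omega))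
  have h7 : C * f (C * n) ≤ C * 2 ^ (N + C) := Nat.mul_le_mul_left _ h3
  have h8 : 0 < 2 ^ (N + C) := by positivity
  nlinarith

/-! ### Countability -/

instance {ι : Type v} [Countable ι] : Countable (FreeSemigroup ι) := by
  have h : Function.Injective fun w : FreeSemigroup ι => (w.head, w.tail) := by
    intro a b hab
    simp only [Prod.mk.injEq] at hab
    exact FreeSemigroup.ext hab.1 hab.2
  exact h.countable

/-- The data of a finite presentation and of finitely many words. -/
abbrev Datum : Type :=
  Σ k : ℕ, Finset (FreeSemigroup (Fin k) × FreeSemigroup (Fin k)) ×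
    Σ m : ℕ, Fin m → FreeSemigroup (Fin k)

/-- The growth function of the given words in the finitely presented semigroup. -/
noncomputable def datumGrowth (d : Datum) (n : ℕ) : ℕ :=
  (ball (fun j => ((d.2.2.2 j : FreeSemigroup (Fin d.1)) :
    (conGen fun a b => (a, b) ∈ d.2.1).Quotient)) n).ncard

theorem exists_datum {S : Type u} [Semigroup S] (hS : FinitelyPresented S) (X : Finset S) :
    ∃ d : Datum, growth X = datumGrowth d := by
  obtain ⟨k, R, ⟨e⟩⟩ := hS
  have hsurj : Function.Surjective
      ((↑) : FreeSemigroup (Fin k) → (conGen fun a b => (a, b) ∈ R).Quotient) :=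
    Quotient.mk_surjective
  let q : Fin X.card ≃ X := X.equivFin.symm
  choose w hw using fun j : Fin X.card => hsurj (e (q j : S))
  refine ⟨⟨k, R, X.card, w⟩, funext fun n => ?_⟩
  have key : ball (fun j => ((w j : FreeSemigroup (Fin k)) :
      (conGen fun a b => (a, b) ∈ R).Quotient)) n = e '' ball (fun x : X => (x : S)) n := by
    have hfun : (fun j => ((w j : FreeSemigroup (Fin k)) :
      (conGen fun a b => (a, b) ∈ R).Quotient)) = fun j => e (q j : S) := funext hw
    rw [hfun]
    have hcomp : ∀ v : FreeSemigroup (Fin X.card),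
        FreeSemigroup.lift (fun j => e (q j : S)) v =
          e (FreeSemigroup.lift (fun x : X => (x : S)) (FreeSemigroup.map q v)) := by
      intro v
      induction v using FreeSemigroup.recOnMul with
      | ih1 x => simp
      | ih2 x y h1 h2 => rw [map_mul, map_mul, map_mul, map_mul, h1, h2]
    ext s
    constructor
    · rintro ⟨v, hv, rfl⟩
      exact ⟨_, ⟨FreeSemigroup.map q v, by simpa using hv, rfl⟩, (hcomp v).symm⟩
    · rintro ⟨_, ⟨v, hv, rfl⟩, rfl⟩
      refine ⟨FreeSemigroup.map q.symm v, by simpa using hv, ?_⟩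
      rw [hcomp]
      congr 2
      induction v using FreeSemigroup.recOnMul with
      | ih1 x => simp
      | ih2 x y h1 h2 =>
        rw [map_mul, map_mul]
        have e1 := h1 (by
          have := length_pos y
          rw [FreeSemigroup.length_mul] at hv
          omega)
        have e2 := h2 (by
          rw [FreeSemigroup.length_mul] at hv
          omega)
        rw [e1, e2]
  show _ = (ball _ n).ncard
  rw [key, growth_eq, Set.ncard_image_of_injective _ e.injective]

/-- **No oscillation between prescribed bounds for finitely presented semigroups.** There is a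
strictly increasing function `f₂`, below `2 ^ n` and not equivalent to it, such that for all
functions `f₁` of subexponential growth (and some of them are strictly increasing, above `n ^ 2` and
not equivalent to it) every finitely presented semigroup `S`, with any finite generating set `X`,
has growth function eventually above `f₁` or eventually below `f₂`. -/
theorem result : ∃ f₂ : ℕ → ℕ, (StrictMono f₂ ∧ GrowthLE f₂ (fun n => 2 ^ n) ∧
      ¬ GrowthEquiv f₂ (fun n => 2 ^ n)) ∧
    (∃ f₁ : ℕ → ℕ, StrictMono f₁ ∧ GrowthLE (fun n => n ^ 2) f₁ ∧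
      ¬ GrowthEquiv f₁ (fun n => n ^ 2) ∧ Subexponential f₁) ∧
    ∀ f₁ : ℕ → ℕ, Subexponential f₁ → ∀ (S : Type u) [Semigroup S], FinitelyPresented S →
      ∀ X : Finset S, Subsemigroup.closure (X : Set S) = ⊤ →
        (∀ᶠ n in atTop, f₁ n ≤ growth X n) ∨ (∀ᶠ n in atTop, growth X n ≤ f₂ n) := by
  classical
  obtain ⟨e, he⟩ := exists_surjective_nat Datum
  let G : ℕ → ℕ → ℕ := fun i => if Subexponential (datumGrowth (e i)) then datumGrowth (e i)
    else fun _ => 0
  have hzero : Subexponential fun _ => 0 := by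
    intro c hc
    exact Eventually.of_forall fun n => by
      push_cast
      exact pow_nonneg (by linarith) n
  have hG : ∀ i, Subexponential (G i) := by
    intro i
    by_cases h : Subexponential (datumGrowth (e i))
    · simp only [G, if_pos h]
      exact h
    · simp only [G, if_neg h]
      exact hzero
  have hmon : ∀ d, Monotone (datumGrowth d) := by
    intro d a b hab
    exact Set.ncard_le_ncard (ball_mono _ hab) (ball_finite _ _)
  have hm : ∀ i, Monotone (G i) := by
    intro i
    by_cases h : Subexponential (datumGrowth (e i))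
    · simp only [G, if_pos h]
      exact hmon _
    · simp only [G, if_neg h]
      exact monotone_const
  obtain ⟨F, hF1, hF2, hF3⟩ := dominate G hG hm
  refine ⟨F, ⟨hF1, le_exp_of_subexp hF2, not_equiv_of_subexp hF2⟩, ?_, ?_⟩
  · refine ⟨fun n => n ^ 3, ?_, ⟨1, le_rfl, ?_⟩, ?_, subexp_pow 3⟩
    · intro a b hab
      exact Nat.pow_lt_pow_left hab (by norm_num)
    · intro n
      show n ^ 2 ≤ 1 * (1 * n) ^ 3
      rw [one_mul, one_mul]
      rcases Nat.eq_zero_or_pos n with rfl | hn
      · norm_num
      · exact Nat.pow_le_pow_right hn (by norm_num)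
    · rintro ⟨⟨C, hC, h⟩, -⟩
      have h1 := h (C ^ 3 + 1)
      simp only at h1
      have h2 : C * (C * (C ^ 3 + 1)) ^ 2 = C ^ 3 * (C ^ 3 + 1) ^ 2 := by ring
      rw [h2] at h1
      have h3 : (C ^ 3 + 1) ^ 3 = C ^ 3 * (C ^ 3 + 1) ^ 2 + (C ^ 3 + 1) ^ 2 := by ring
      rw [h3] at h1
      have h4 : 0 < (C ^ 3 + 1) ^ 2 := by positivity
      omega
  · intro f₁ hf₁ S _ hS X _
    obtain ⟨d, hd⟩ := exists_datum hS X
    obtain ⟨i, rfl⟩ := he d
    rcases dichotomy (fun n => growth X n + 1) (fun n => by omega)
      (fun m n => submul (fun x : X => (x : S)) m n) with h | ⟨c, hc, h⟩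
    · right
      have hsub : Subexponential (datumGrowth (e i)) := by
        rw [← hd]
        exact h.mono fun n => Nat.le_succ _
      have := hF3 i
      simp only [G, if_pos hsub] at this
      rw [hd]
      exact this
    · left
      have hc' : 1 < Real.sqrt c := by
        rw [Real.lt_sqrt (by norm_num)]
        linarith
      have h2 : ∀ᶠ n : ℕ in atTop, (2 : ℝ) ≤ Real.sqrt c ^ n :=
        (tendsto_pow_atTop_atTop_of_one_lt hc').eventually_ge_atTop 2
      filter_upwards [hf₁ _ hc', h2] with n hn1 hn2
      have h3 : c ^ n = Real.sqrt c ^ n * Real.sqrt c ^ n := by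
        rw [← mul_pow, Real.mul_self_sqrt (by linarith)]
      have h4 := h n
      rw [h3] at h4
      push_cast at h4
      have h5 : (f₁ n : ℝ) ≤ growth X n := by nlinarith
      exact_mod_cast h5

end Pool.Agent.Results.MP_dd6e79_al.NoOscillation
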